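import Pool.Agent.Helper94.US.Stm

set_option autoImplicit false

namespace Pool.Agent.Helper65.US

open Finset Pool.Agent.H692R2.USS Pool.Agent.Helper94.US
open scoped Classical

lemma dy_ge {l k : ℕ} (hk : k ∈ Dy l) : 2 ^ l ≤ k := (Finset.mem_Ico.1 hk).1

lemma dy_pos {l k : ℕ} (hk : k ∈ Dy l) : 1 ≤ k := le_trans Nat.one_le_two_pow (dy_ge hk)

/-- weighted form of Brun-Titchmarsh -/
lemma key {C : ℝ} (hC : ∀ q l : ℕ, 1 ≤ q →
    (((Finset.Ico (2 ^ l) (2 ^ (l + 1))).filter (fun k => (q * k + 1).Prime)).card : ℝ) ≤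
      C * ((q : ℝ) / (Nat.totient q)) * 2 ^ l / ((l : ℝ) + 1)) (q l : ℕ) (hq : 1 ≤ q) :
    ∑ k ∈ Dy l, (if (q * k + 1).Prime then (1 : ℝ) / k else 0) ≤
      C * ((q : ℝ) / (Nat.totient q)) / ((l : ℝ) + 1) := by
  have h1 : ∑ k ∈ Dy l, (if (q * k + 1).Prime then (1 : ℝ) / k else 0) ≤
      ∑ k ∈ Dy l, (if (q * k + 1).Prime then (1 : ℝ) / 2 ^ l else 0) := by
    refine Finset.sum_le_sum fun k hk => ?_
    split_ifs with h
    · have h2 : ((2 : ℝ) ^ l) ≤ k := by exact_mod_cast dy_ge hk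
      exact one_div_le_one_div_of_le (by positivity) h2
    · exact le_rfl
  refine h1.trans ?_
  rw [← Finset.sum_filter, Finset.sum_const, nsmul_eq_mul]
  have h3 := hC q l hq
  have h2l : (0 : ℝ) < 2 ^ l := by positivity
  have h4 : (((Dy l).filter (fun k => (q * k + 1).Prime)).card : ℝ) * (1 / 2 ^ l) ≤
      (C * ((q : ℝ) / (Nat.totient q)) * 2 ^ l / ((l : ℝ) + 1)) * (1 / 2 ^ l) :=
    mul_le_mul_of_nonneg_right h3 (by positivity)
  refine h4.trans (le_of_eq ?_)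
  field_simp

lemma vb {C C' : ℝ} (hC0 : 0 < C) (hC : ∀ q l : ℕ, 1 ≤ q →
    (((Finset.Ico (2 ^ l) (2 ^ (l + 1))).filter (fun k => (q * k + 1).Prime)).card : ℝ) ≤
      C * ((q : ℝ) / (Nat.totient q)) * 2 ^ l / ((l : ℝ) + 1))
    (hC' : ∀ r : ℕ, ∑ a ∈ Finset.Ico (2 ^ r) (2 ^ (r + 1)), (1 : ℝ) / (Nat.totient a) ≤ C')
    (r s : ℕ) :
    ∑ d ∈ Dy r, ∑ k ∈ Dy s, (if (d * k + 1).Prime then (1 : ℝ) / d * (1 / k) else 0) ≤
      C * C' / ((s : ℝ) + 1) := by
  have h1 : ∀ d ∈ Dy r, ∑ k ∈ Dy s, (if (d * k + 1).Prime then (1 : ℝ) / d * (1 / k) else 0) ≤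
      C / ((s : ℝ) + 1) * (1 / (Nat.totient d)) := by
    intro d hd
    have hd1 := dy_pos hd
    have hd0 : (0 : ℝ) < d := by exact_mod_cast hd1
    have hp0 : (0 : ℝ) < Nat.totient d := by exact_mod_cast Nat.totient_pos.2 hd1
    have h2 : ∑ k ∈ Dy s, (if (d * k + 1).Prime then (1 : ℝ) / d * (1 / k) else 0) =
        (1 / d) * ∑ k ∈ Dy s, (if (d * k + 1).Prime then (1 : ℝ) / k else 0) := by
      rw [Finset.mul_sum]
      refine Finset.sum_congr rfl fun k _ => ?_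
      split_ifs <;> ring
    rw [h2]
    refine (mul_le_mul_of_nonneg_left (key hC d s hd1) (by positivity)).trans (le_of_eq ?_)
    field_simp
  refine (Finset.sum_le_sum h1).trans ?_
  rw [← Finset.mul_sum]
  refine (mul_le_mul_of_nonneg_left (hC' r) (by positivity)).trans (le_of_eq ?_)
  ring

theorem t_A2b : A2b := by
  rintro ⟨C, hC0, hC⟩ ⟨C', hC'0, hC'⟩
  refine ⟨C * (C * C'), by positivity, fun r s t => ?_⟩
  have hW : W r s t ≤ C / ((t : ℝ) + 1) *
      ∑ d ∈ Dy r, ∑ k ∈ Dy s, (if (d * k + 1).Prime then (1 : ℝ) / d * (1 / k) else 0) := by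
    unfold W
    rw [Finset.mul_sum]
    refine Finset.sum_le_sum fun d hd => ?_
    rw [Finset.mul_sum]
    refine Finset.sum_le_sum fun k hk => ?_
    have hd1 := dy_pos hd
    have hk1 := dy_pos hk
    have hd0 : (0 : ℝ) < d := by exact_mod_cast hd1
    have hk0 : (0 : ℝ) < k := by exact_mod_cast hk1
    have hp0 : (0 : ℝ) < Nat.totient d := by exact_mod_cast Nat.totient_pos.2 hd1
    by_cases hP : (d * k + 1).Prime
    · have h2 : ∑ k' ∈ Dy t, (if (d * k + 1).Prime ∧ (d * k' + 1).Prime then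
          (Nat.totient d : ℝ) / ((d : ℝ) ^ 2 * k * k') else 0) =
          (Nat.totient d : ℝ) / ((d : ℝ) ^ 2 * k) *
            ∑ k' ∈ Dy t, (if (d * k' + 1).Prime then (1 : ℝ) / k' else 0) := by
        rw [Finset.mul_sum]
        refine Finset.sum_congr rfl fun k' hk' => ?_
        have hk'0 : (0 : ℝ) < k' := by exact_mod_cast dy_pos hk'
        by_cases hP' : (d * k' + 1).Prime
        · rw [if_pos ⟨hP, hP'⟩, if_pos hP']
          field_simp
        · rw [if_neg (fun h => hP' h.2), if_neg hP', mul_zero]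
      rw [h2, if_pos hP]
      refine (mul_le_mul_of_nonneg_left (key hC d t hd1) (by positivity)).trans (le_of_eq ?_)
      field_simp
    · rw [if_neg hP, mul_zero]
      refine le_of_eq (Finset.sum_eq_zero fun k' _ => ?_)
      rw [if_neg (fun h => hP h.1)]
  have ht : (0 : ℝ) < (t : ℝ) + 1 := by positivity
  constructor
  · have hsw : ∑ d ∈ Dy r, ∑ k ∈ Dy s, (if (d * k + 1).Prime then (1 : ℝ) / d * (1 / k) else 0) =
        ∑ k ∈ Dy s, ∑ d ∈ Dy r, (if (k * d + 1).Prime then (1 : ℝ) / k * (1 / d) else 0) := by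
      rw [Finset.sum_comm]
      refine Finset.sum_congr rfl fun k _ => Finset.sum_congr rfl fun d _ => ?_
      rw [mul_comm d k, mul_comm (1 / (d : ℝ))]
    rw [hsw] at hW
    refine hW.trans ((mul_le_mul_of_nonneg_left (vb hC0 hC hC' s r) (by positivity)).trans
      (le_of_eq ?_))
    field_simp
  · refine hW.trans ((mul_le_mul_of_nonneg_left (vb hC0 hC hC' r s) (by positivity)).trans
      (le_of_eq ?_))
    field_simp

end Pool.Agent.Helper65.US
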